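import Pool.Agent.Q271.NL.Main

set_option autoImplicit false

namespace Pool.Agent.Results.MP_3eb9f6_co.BoundAttained

open Pool.Agent.Q271.NL

/-- For all `3 ≤ Δ ≤ k - 1` there is a connected graph with neighbour-locating chromatic number
`k`, maximum degree `Δ` and order `B(k, Δ) = ∑_{j=1}^{Δ} k * choose (k-1) j`. -/
theorem result (k D : ℕ) (hD : 3 ≤ D) (hk : D + 1 ≤ k) :
    ∃ (V : Type) (_ : Fintype V) (G : SimpleGraph V) (_ : DecidableRel G.Adj),
      G.Connected ∧ chiNL G = k ∧ G.maxDegree = D ∧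
      Fintype.card V = ∑ j ∈ Finset.Icc 1 D, k * (k - 1).choose j :=
  attained k D hD hk

end Pool.Agent.Results.MP_3eb9f6_co.BoundAttained
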